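import Pool.Agent.R161.Bohr.Basic

/-!
BO-WT and BO-MAIN (helper141): the localising weight and the main term.
-/

set_option autoImplicit false

namespace Pool.Agent.R141.Bohr

open Finset Pool.Agent.R161.Bohr
open scoped ComplexConjugate

universe u v

/-! ### the kernel -/

theorem norm_sq_sum (z : Circle) : ‖(1 : ℂ) + (z : ℂ)‖ ^ 2 = 4 - ‖(z : ℂ) - 1‖ ^ 2 := by
  have hz : ‖(z : ℂ)‖ ^ 2 = 1 := by rw [Circle.norm_coe]; norm_num
  rw [← Complex.normSq_eq_norm_sq] at hz ⊢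
  rw [← Complex.normSq_eq_norm_sq]
  simp only [Complex.normSq_apply, Complex.add_re, Complex.add_im, Complex.sub_re, Complex.sub_im,
    Complex.one_re, Complex.one_im] at hz ⊢
  linarith

theorem kp_nonneg (p : ℕ) (z : Circle) : 0 ≤ kp p z := by
  unfold kp
  positivity

theorem kp_le_one (p : ℕ) (z : Circle) : kp p z ≤ 1 := by
  unfold kp
  refine pow_le_one₀ (by positivity) ?_
  rw [norm_sq_sum]
  have : 0 ≤ ‖(z : ℂ) - 1‖ ^ 2 := by positivity
  linarith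

theorem kp_le (p : ℕ) (z : Circle) (η : ℝ) (hη : 0 ≤ η) (h : η ≤ ‖(z : ℂ) - 1‖) :
    kp p z ≤ (1 - η ^ 2 / 4) ^ p := by
  unfold kp
  refine pow_le_pow_left₀ (by positivity) ?_ p
  rw [norm_sq_sum]
  have : η ^ 2 ≤ ‖(z : ℂ) - 1‖ ^ 2 := pow_le_pow_left₀ hη h 2
  linarith

section
variable {G : Type u} [AddCommGroup G] {d : ℕ}

theorem Wt_nonneg (j1 : Fin d) (Ω : Finset (AddChar G Circle)) (p : ℕ) (x : Fin d → G) :
    0 ≤ Wt j1 Ω p x :=
  prod_nonneg fun _ _ => prod_nonneg fun _ _ => kp_nonneg _ _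

theorem Wt_le_one (j1 : Fin d) (Ω : Finset (AddChar G Circle)) (p : ℕ) (x : Fin d → G) :
    Wt j1 Ω p x ≤ 1 :=
  prod_le_one (fun _ _ => prod_nonneg fun _ _ => kp_nonneg _ _)
    fun _ _ => prod_le_one (fun _ _ => kp_nonneg _ _) fun _ _ => kp_le_one _ _

theorem Wt_le (j1 : Fin d) (Ω : Finset (AddChar G Circle)) (p : ℕ) (x : Fin d → G) (j : Fin d)
    (ξ : AddChar G Circle) (hξ : ξ ∈ Ω) : Wt j1 Ω p x ≤ kp p (ξ (x j - x j1)) := by
  classical
  unfold Wt
  rw [← mul_prod_erase univ _ (mem_univ j), ← mul_prod_erase Ω _ hξ, mul_assoc]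
  refine mul_le_of_le_one_right (kp_nonneg _ _) ?_
  refine mul_le_one₀ ?_ ?_ ?_
  · exact prod_le_one (fun _ _ => kp_nonneg _ _) fun _ _ => kp_le_one _ _
  · exact prod_nonneg fun _ _ => prod_nonneg fun _ _ => kp_nonneg _ _
  · exact prod_le_one (fun _ _ => prod_nonneg fun _ _ => kp_nonneg _ _)
      fun _ _ => prod_le_one (fun _ _ => kp_nonneg _ _) fun _ _ => kp_le_one _ _

theorem Wt_inv (j1 : Fin d) (Ω : Finset (AddChar G Circle)) (p : ℕ) (a : G) (x : Fin d → G) :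
    Wt j1 Ω p (fun j => x j + a) = Wt j1 Ω p x := by
  unfold Wt
  simp only [add_sub_add_right_eq_sub]

theorem Wt_bdd (j1 : Fin d) (Ω : Finset (AddChar G Circle)) (p : ℕ) : BddR (Wt j1 Ω p) :=
  BddR.of_mem fun x => ⟨Wt_nonneg j1 Ω p x, Wt_le_one j1 Ω p x⟩

end

/-- the character `x ↦ ξ (x_j - x_{j1})` -/
noncomputable def dchar {G : Type u} [AddCommGroup G] {d : ℕ} (j1 j : Fin d)
    (ξ : AddChar G Circle) : AddChar (Fin d → G) Circle :=
  ξ.compAddMonoidHom (Pi.evalAddMonoidHom (fun _ : Fin d => G) j -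
    Pi.evalAddMonoidHom (fun _ : Fin d => G) j1)

theorem dchar_apply {G : Type u} [AddCommGroup G] {d : ℕ} (j1 j : Fin d)
    (ξ : AddChar G Circle) (x : Fin d → G) : dchar j1 j ξ x = ξ (x j - x j1) := rfl

theorem s_wt : S_ker.{u} → S_wt.{u} := by
  intro hker G _ m hm d φ M hM j1 Ω p
  classical
  obtain ⟨R, hR, v, θ, r0, hv, hsum, hθ, hr0, -, hexp⟩ := hker (Fin d → G) (Fin d × Ω)
    (fun i => dchar j1 i.1 (i.2 : AddChar G Circle)) p
  have hcard : Fintype.card (Fin d × Ω) = d * Ω.card := by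
    rw [Fintype.card_prod, Fintype.card_fin, Fintype.card_coe]
  have hprod : ∀ x, ∏ i : Fin d × Ω, kp p (dchar j1 i.1 (i.2 : AddChar G Circle) x) =
      Wt j1 Ω p x := by
    intro x
    unfold Wt
    rw [Fintype.prod_prod_type]
    refine prod_congr rfl fun j _ => ?_
    simp only [dchar_apply]
    exact prod_coe_sort Ω fun ξ => kp p (ξ (x j - x j1))
  have hexp' : ∀ x, (Wt j1 Ω p x : ℂ) = ∑ r, (v r : ℂ) * (θ r x : ℂ) := by
    intro x
    rw [← hprod x]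
    exact hexp x
  refine ⟨?_, R, hR, v, θ, hv, hsum, hexp'⟩
  rw [hcard] at hr0
  refine hr0.trans ?_
  have h1 : M (fun x => (Wt j1 Ω p x : ℂ)) = ∑ r, (v r : ℂ) * M (fun x => (θ r x : ℂ)) := by
    have : (fun x => (Wt j1 Ω p x : ℂ)) = fun x => ∑ r, (v r : ℂ) * (θ r x : ℂ) := funext hexp'
    rw [this, M.map_sum univ fun r _ => (Bdd.char (θ r)).cmul _]
    exact sum_congr rfl fun r _ => M.map_cmul _ (Bdd.char (θ r))
  have h2 : M.re (Wt j1 Ω p) = ∑ r, v r * (M (fun x => (θ r x : ℂ))).re := by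
    unfold St.re
    rw [h1, Complex.re_sum]
    exact sum_congr rfl fun r _ => by rw [Complex.re_ofReal_mul]
  rw [h2]
  have h3 : ∀ r, 0 ≤ v r * (M (fun x => (θ r x : ℂ))).re := by
    intro r
    refine mul_nonneg (hv r) ?_
    rcases hM.char (θ r) with h | h
    · rw [h.2]
      simp
    · rw [h.2]
      simp
  have h4 : v r0 * (M (fun x => (θ r0 x : ℂ))).re = v r0 := by
    rw [hθ]
    have : (fun x => (((1 : AddChar (Fin d → G) Circle) x : Circle) : ℂ)) = fun _ => (1 : ℂ) := by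
      funext x
      simp
    rw [this, M.map_one]
    simp
  rw [← h4]
  exact single_le_sum (f := fun r => v r * (M (fun x => (θ r x : ℂ))).re) (fun r _ => h3 r)
    (mem_univ r0)

/-! ### the main term -/

theorem prod_ge {ι : Type*} (T : Finset ι) (t : ι → ℝ) (s e : ℝ) (hs0 : 0 ≤ s) (hs1 : s ≤ 1)
    (he : 0 ≤ e) (ht : ∀ i ∈ T, 0 ≤ t i ∧ t i ≤ 1 ∧ s - e ≤ t i) :
    s ^ T.card - T.card * e ≤ ∏ i ∈ T, t i := by
  classical
  induction T using Finset.induction_on with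
  | empty => simp
  | insert i T hi ih =>
    have h1 := ih fun j hj => ht j (mem_insert_of_mem hj)
    obtain ⟨h2, h3, h4⟩ := ht i (mem_insert_self i T)
    have h5 : 0 ≤ ∏ j ∈ T, t j := prod_nonneg fun j hj => (ht j (mem_insert_of_mem hj)).1
    have h6 : ∏ j ∈ T, t j ≤ 1 := prod_le_one (fun j hj => (ht j (mem_insert_of_mem hj)).1)
      fun j hj => (ht j (mem_insert_of_mem hj)).2.1
    rw [card_insert_of_notMem hi, prod_insert hi, pow_succ]
    push_cast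
    have h7 : (∏ j ∈ T, t j) * (s - e) ≤ (∏ j ∈ T, t j) * t i :=
      mul_le_mul_of_nonneg_left h4 h5
    have h8 : (s ^ T.card - T.card * e) * s ≤ (∏ j ∈ T, t j) * s :=
      mul_le_mul_of_nonneg_right h1 hs0
    have h9 : (∏ j ∈ T, t j) * e ≤ e := mul_le_of_le_one_left he h6
    have h10 : (T.card : ℝ) * e * s ≤ T.card * e := mul_le_of_le_one_right (by positivity) hs1
    nlinarith

theorem pow_tangent (d : ℕ) (t δ : ℝ) (ht : 0 ≤ t) (hδ : 0 ≤ δ) :
    δ ^ (d + 1) + (d + 1) * δ ^ d * (t - δ) ≤ t ^ (d + 1) := by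
  induction d with
  | zero => simp
  | succ d ih =>
    have h1 := mul_le_mul_of_nonneg_left ih ht
    have h2 : 0 ≤ ((d : ℝ) + 1) * δ ^ d * (t - δ) ^ 2 := by positivity
    have e1 : t ^ (d + 1 + 1) = t * t ^ (d + 1) := by ring
    have e2 : δ ^ (d + 1 + 1) + (((d + 1 : ℕ) : ℝ) + 1) * δ ^ (d + 1) * (t - δ) =
      t * (δ ^ (d + 1) + (d + 1) * δ ^ d * (t - δ)) - ((d : ℝ) + 1) * δ ^ d * (t - δ) ^ 2 := by
      push_cast
      ring
    rw [e1, e2]
    linarith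

theorem re_pow {X : Type v} (m : St X) (f : X → ℝ) (hf : ∀ x, 0 ≤ f x ∧ f x ≤ 1) (δ : ℝ)
    (hδ : 0 ≤ δ) (h : δ ≤ m.re f) (d : ℕ) : δ ^ d ≤ m.re (fun x => f x ^ d) := by
  have hb : BddR f := BddR.of_mem hf
  cases d with
  | zero => simp [m.re_const]
  | succ d =>
    have hb1 : BddR (fun x => f x - δ) := hb.sub (BddR.const δ)
    have h1 : m.re (fun x => δ ^ (d + 1) + ((d + 1) * δ ^ d) * (f x - δ)) ≤
        m.re (fun x => f x ^ (d + 1)) :=
      m.re_mono ((BddR.const _).add (hb1.cmul _)) (hb.pow _)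
        fun x => pow_tangent d (f x) δ (hf x).1 hδ
    rw [m.re_add (BddR.const _) (hb1.cmul _), m.re_const, m.re_cmul _ hb1,
      m.re_sub hb (BddR.const δ), m.re_const] at h1
    have h2 : 0 ≤ ((d : ℝ) + 1) * δ ^ d * (m.re f - δ) :=
      mul_nonneg (by positivity) (sub_nonneg.2 h)
    linarith

theorem s_main : S_main.{u} := by
  intro G _ m hm d φ M hM j1 Ω p f1 a δ η hf1 ha hf1a hδ hδm hη hη1
  set W := Wt j1 Ω p with hW
  have hWb : BddR W := Wt_bdd j1 Ω p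
  have hf1b : BddR f1 := BddR.of_mem hf1
  set e : ℝ := Ω.card * η with he
  have he0 : 0 ≤ e := by positivity
  set κ : ℝ := (1 - η ^ 2 / 4) ^ p with hκ
  have hκ0 : 0 ≤ κ := by
    have : 0 ≤ 1 - η ^ 2 / 4 := by nlinarith
    positivity
  -- `f1` is almost constant at good points
  have hclose : ∀ y y' : G, (∀ ξ ∈ Ω, ‖(ξ (y - y') : ℂ) - 1‖ < η) → f1 y' - e ≤ f1 y := by
    intro y y' h
    have h1 : (f1 y' : ℂ) - f1 y = ∑ ξ ∈ Ω, a ξ * ((ξ y' : ℂ) - (ξ y : ℂ)) := by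
      rw [hf1a y, hf1a y', trig, trig, ← sum_sub_distrib]
      exact sum_congr rfl fun ξ _ => by ring
    have h2 : ‖(f1 y' : ℂ) - f1 y‖ ≤ ∑ ξ ∈ Ω, η := by
      rw [h1]
      refine (norm_sum_le _ _).trans (sum_le_sum fun ξ hξ => ?_)
      rw [norm_mul]
      have h3 : (ξ y' : ℂ) - (ξ y : ℂ) = -(((ξ (y - y') : ℂ) - 1) * (ξ y' : ℂ)) := by
        have : (ξ y : ℂ) = (ξ (y - y') : ℂ) * (ξ y' : ℂ) := by
          rw [← char_add, sub_add_cancel]
        rw [this]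
        ring
      rw [h3, norm_neg, norm_mul, norm_char, mul_one]
      calc ‖a ξ‖ * ‖(ξ (y - y') : ℂ) - 1‖ ≤ 1 * η :=
            mul_le_mul (ha ξ) (h ξ hξ).le (norm_nonneg _) zero_le_one
        _ = η := one_mul η
    rw [sum_const, nsmul_eq_mul, ← Complex.ofReal_sub, Complex.norm_real, Real.norm_eq_abs] at h2
    have h3 := (le_abs_self _).trans h2
    linarith
  -- pointwise inequality
  have hpt : ∀ x : Fin d → G, (W x * f1 (x j1) ^ d - (d * e) * W x) - κ ≤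
      W x * ∏ j, f1 (x j) := by
    intro x
    have hW0 : 0 ≤ W x := Wt_nonneg j1 Ω p x
    by_cases hgood : ∀ j, ∀ ξ ∈ Ω, ‖(ξ (x j - x j1) : ℂ) - 1‖ < η
    · have h1 := prod_ge univ (fun j => f1 (x j)) (f1 (x j1)) e (hf1 _).1 (hf1 _).2 he0
        fun j _ => ⟨(hf1 _).1, (hf1 _).2, hclose _ _ (hgood j)⟩
      rw [card_univ, Fintype.card_fin] at h1
      have h2 := mul_le_mul_of_nonneg_left h1 hW0
      linarith
    · push Not at hgood
      obtain ⟨j, ξ, hξ, hge⟩ := hgood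
      have h1 : W x ≤ κ := (Wt_le j1 Ω p x j ξ hξ).trans (kp_le p _ η hη.le hge)
      have h2 : f1 (x j1) ^ d ≤ 1 := pow_le_one₀ (hf1 _).1 (hf1 _).2
      have h3 : W x * f1 (x j1) ^ d ≤ W x := mul_le_of_le_one_right hW0 h2
      have h4 : 0 ≤ W x * ∏ j, f1 (x j) := mul_nonneg hW0 (prod_nonneg fun j _ => (hf1 _).1)
      have h5 : 0 ≤ (d * e) * W x := by positivity
      linarith
  have hpb : BddR (fun x : Fin d → G => f1 (x j1) ^ d) :=
    (hf1b.pow d).comp fun x : Fin d → G => x j1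
  have hb1 : BddR (fun x : Fin d → G => W x * f1 (x j1) ^ d) := hWb.mul hpb
  have hb2 : BddR (fun x : Fin d → G => (d * e) * W x) := hWb.cmul _
  have hb3 : BddR (fun x : Fin d → G => W x * ∏ j, f1 (x j)) :=
    hWb.mul (BddR.prod _ fun j _ => hf1b.comp fun x : Fin d → G => x j)
  have h1 := M.re_mono ((hb1.sub hb2).sub (BddR.const κ)) hb3 hpt
  rw [M.re_sub (hb1.sub hb2) (BddR.const κ), M.re_sub hb1 hb2, M.re_const, M.re_cmul _ hWb] at h1
  have h2 : M.re (fun x => W x * f1 (x j1) ^ d) = M.re W * m.re (fun y => f1 y ^ d) :=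
    hM.prod_re hWb (fun a x => Wt_inv j1 Ω p a x) j1 (hf1b.pow d)
  have h3 := re_pow m f1 hf1 δ hδ hδm d
  have h4 : 0 ≤ M.re W := M.re_nonneg hWb fun x => Wt_nonneg j1 Ω p x
  have h5 := mul_le_mul_of_nonneg_left h3 h4
  rw [h2] at h1
  have h6 : M.re W * (δ ^ d - d * e) - κ = (M.re W * δ ^ d - d * e * M.re W) - κ := by ring
  rw [h6]
  linarith

end Pool.Agent.R141.Bohr
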