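import Pool.Agent.R161.Bohr.Basic
import Pool.Agent.R141.Bohr.Wt

/-!
BO-ONE (helper141): the one-scale estimate.
-/

set_option autoImplicit false

namespace Pool.Agent.R141.Bohr

open Finset Pool.Agent.R161.Bohr Filter Topology
open scoped ComplexConjugate

universe u v

theorem exists_p (r : ℝ) (hr0 : 0 ≤ r) (hr1 : r < 1) (n : ℕ) (e : ℝ) (he : 0 < e) :
    ∃ p : ℕ, r ^ p * (2 * (p : ℝ) + 1) ^ n ≤ e := by
  have h1 : Tendsto (fun p : ℕ => 3 ^ n * ((p : ℝ) ^ n * r ^ p)) atTop (𝓝 (3 ^ n * 0)) :=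
    (tendsto_pow_const_mul_const_pow_of_abs_lt_one n (by rwa [abs_of_nonneg hr0])).const_mul _
  rw [mul_zero] at h1
  obtain ⟨p, hp1, hp⟩ := ((eventually_ge_atTop 1).and (h1.eventually (gt_mem_nhds he))).exists
  refine ⟨p, ?_⟩
  have h2 : (1 : ℝ) ≤ p := by exact_mod_cast hp1
  have h3 : (2 * (p : ℝ) + 1) ^ n ≤ (3 * p) ^ n := pow_le_pow_left₀ (by positivity) (by linarith) n
  calc r ^ p * (2 * (p : ℝ) + 1) ^ n ≤ r ^ p * (3 * p) ^ n :=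
        mul_le_mul_of_nonneg_left h3 (by positivity)
    _ = 3 ^ n * ((p : ℝ) ^ n * r ^ p) := by rw [mul_pow]; ring
    _ ≤ e := hp.le

theorem trig_ext {G : Type u} [AddCommGroup G] (Λ Λ' : Finset (AddChar G Circle)) (h : Λ ⊆ Λ')
    (c : AddChar G Circle → ℂ) (hc : ∀ ξ, ξ ∉ Λ → c ξ = 0) : trig Λ' c = trig Λ c := by
  funext x
  unfold trig
  refine (sum_subset h fun ξ _ hξ => ?_).symm
  rw [hc ξ hξ, zero_mul]

/-- the `L²` distance between the truncated Fourier series and the smoothed function -/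
theorem dist_le {G : Type u} [AddCommGroup G] {m : St G} (hm : m.Inv) (f f1 : G → ℝ)
    (hf : ∀ x, 0 ≤ f x ∧ f x ≤ 1) (κ ε ε' : ℝ) (hκ : 0 ≤ κ) (hκ1 : κ ≤ 1) (_hε' : 0 ≤ ε')
    (hεε : ε' ≤ ε)
    (Λ Λ' Ω : Finset (AddChar G Circle)) (b : AddChar G Circle → ℝ) (Q : ℕ) (hΩ : Ω.card ≤ Q)
    (hΛ : ∀ ξ, ξ ∈ Λ ↔ ε ≤ ‖coef m (fun x => (f x : ℂ)) ξ‖)
    (hΛ' : ∀ ξ, ξ ∈ Λ' ↔ ε' ≤ ‖coef m (fun x => (f x : ℂ)) ξ‖)
    (hb : ∀ ξ, 0 ≤ b ξ ∧ b ξ ≤ 1) (hb0 : ∀ ξ, ξ ∉ Ω → b ξ = 0) (hbΛ : ∀ ξ ∈ Λ, 1 - κ ≤ b ξ)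
    (hf1 : ∀ x, (f1 x : ℂ) = trig Ω (fun ξ => (b ξ : ℂ) * coef m (fun y => (f y : ℂ)) ξ) x)
    (hQ : Q * ε' ^ 2 ≤ κ)
    (hsh : ∀ Λ : Finset (AddChar G Circle), (∀ ξ ∈ Λ, ε' ≤ ‖coef m (fun x => (f x : ℂ)) ξ‖ ∧
      ‖coef m (fun x => (f x : ℂ)) ξ‖ < ε) →
      ∑ ξ ∈ Λ, ‖coef m (fun x => (f x : ℂ)) ξ‖ ^ 2 ≤ κ) :
    m.n2 (fun x => trig Λ' (coef m (fun y => (f y : ℂ))) x - (f1 x : ℂ)) ≤ 3 * κ := by
  classical
  set F : G → ℂ := fun x => (f x : ℂ) with hF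
  have hFb : Bdd F := (BddR.of_mem hf).ofReal
  set a := coef m F with ha
  set c : AddChar G Circle → ℂ := fun ξ => (if ξ ∈ Λ' then a ξ else 0) - (b ξ : ℂ) * a ξ with hc
  have e1 : (fun x => trig Λ' a x - (f1 x : ℂ)) = trig (Λ' ∪ Ω) c := by
    funext x
    have h1 : trig Λ' a = trig (Λ' ∪ Ω) (fun ξ => if ξ ∈ Λ' then a ξ else 0) := by
      rw [trig_ext Λ' (Λ' ∪ Ω) subset_union_left (fun ξ => if ξ ∈ Λ' then a ξ else 0)
        (fun ξ hξ => by simp [hξ])]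
      funext x
      unfold trig
      exact sum_congr rfl fun ξ hξ => by simp only [if_pos hξ]
    have h2 : trig Ω (fun ξ => (b ξ : ℂ) * a ξ) = trig (Λ' ∪ Ω) (fun ξ => (b ξ : ℂ) * a ξ) :=
      (trig_ext Ω (Λ' ∪ Ω) subset_union_right _ (fun ξ hξ => by rw [hb0 ξ hξ]; simp)).symm
    rw [hf1 x, h1, h2]
    unfold trig
    rw [← sum_sub_distrib]
    exact sum_congr rfl fun ξ _ => by rw [hc]; ring
  rw [e1, n2_trig hm]
  -- split the sum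
  have hn2 : m.n2 F ≤ 1 := by
    have := m.n2_le_of (f := F) (C := 1) fun x => by
      rw [hF, Complex.norm_real, Real.norm_eq_abs, abs_of_nonneg (hf x).1]
      exact (hf x).2
    simpa using this
  have hΛΛ' : Λ ⊆ Λ' := fun ξ hξ => (hΛ' ξ).2 (hεε.trans ((hΛ ξ).1 hξ))
  have s1 : ∑ ξ ∈ Λ, ‖c ξ‖ ^ 2 ≤ κ := by
    have h1 : ∑ ξ ∈ Λ, ‖c ξ‖ ^ 2 ≤ ∑ ξ ∈ Λ, κ * ‖a ξ‖ ^ 2 := by
      refine sum_le_sum fun ξ hξ => ?_
      have h2 : c ξ = ((1 - b ξ : ℝ) : ℂ) * a ξ := by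
        rw [hc]
        simp only [if_pos (hΛΛ' hξ)]
        push_cast
        ring
      rw [h2, norm_mul, Complex.norm_real, Real.norm_eq_abs, mul_pow, sq_abs]
      refine mul_le_mul_of_nonneg_right ?_ (by positivity)
      have h3 := hbΛ ξ hξ
      have h4 := (hb ξ).2
      nlinarith
    refine h1.trans ?_
    rw [← mul_sum]
    calc κ * ∑ ξ ∈ Λ, ‖a ξ‖ ^ 2 ≤ κ * 1 :=
          mul_le_mul_of_nonneg_left ((bessel hm hFb Λ).trans hn2) hκ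
      _ = κ := mul_one κ
  have s2 : ∑ ξ ∈ Λ' \ Λ, ‖c ξ‖ ^ 2 ≤ κ := by
    refine (sum_le_sum fun ξ hξ => ?_).trans (hsh (Λ' \ Λ) fun ξ hξ => ?_)
    · rw [Finset.mem_sdiff] at hξ
      have h2 : c ξ = ((1 - b ξ : ℝ) : ℂ) * a ξ := by
        rw [hc]
        simp only [if_pos hξ.1]
        push_cast
        ring
      rw [h2, norm_mul, Complex.norm_real, Real.norm_eq_abs]
      refine pow_le_pow_left₀ (by positivity) ?_ 2
      refine mul_le_of_le_one_left (norm_nonneg _) ?_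
      rw [abs_of_nonneg (by linarith [(hb ξ).2])]
      linarith [(hb ξ).1]
    · rw [Finset.mem_sdiff, hΛ', hΛ] at hξ
      exact ⟨hξ.1, not_le.1 hξ.2⟩
  have s3 : ∑ ξ ∈ Ω \ Λ', ‖c ξ‖ ^ 2 ≤ κ := by
    have h1 : ∑ ξ ∈ Ω \ Λ', ‖c ξ‖ ^ 2 ≤ ∑ ξ ∈ Ω \ Λ', ε' ^ 2 := by
      refine sum_le_sum fun ξ hξ => ?_
      rw [Finset.mem_sdiff] at hξ
      have h2 : c ξ = -(((b ξ : ℝ) : ℂ) * a ξ) := by
        rw [hc]
        simp only [if_neg hξ.2]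
        ring
      have h3 : ‖a ξ‖ < ε' := not_le.1 fun h => hξ.2 ((hΛ' ξ).2 h)
      rw [h2, norm_neg, norm_mul, Complex.norm_real, Real.norm_eq_abs, abs_of_nonneg (hb ξ).1]
      refine pow_le_pow_left₀ (mul_nonneg (hb ξ).1 (norm_nonneg _)) ?_ 2
      calc b ξ * ‖a ξ‖ ≤ 1 * ‖a ξ‖ := mul_le_mul_of_nonneg_right (hb ξ).2 (norm_nonneg _)
        _ ≤ ε' := by rw [one_mul]; exact h3.le
    refine h1.trans ?_
    rw [sum_const, nsmul_eq_mul]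
    refine le_trans (mul_le_mul_of_nonneg_right ?_ (by positivity)) hQ
    exact_mod_cast (card_le_card sdiff_subset).trans hΩ
  have hsub : Λ' ∪ Ω ⊆ Λ ∪ ((Λ' \ Λ) ∪ (Ω \ Λ')) := by
    intro ξ hξ
    simp only [mem_union, Finset.mem_sdiff] at hξ ⊢
    tauto
  calc ∑ ξ ∈ Λ' ∪ Ω, ‖c ξ‖ ^ 2 ≤ ∑ ξ ∈ Λ ∪ ((Λ' \ Λ) ∪ (Ω \ Λ')), ‖c ξ‖ ^ 2 :=
        sum_le_sum_of_subset_of_nonneg hsub fun _ _ _ => by positivity
    _ ≤ ∑ ξ ∈ Λ, ‖c ξ‖ ^ 2 + ∑ ξ ∈ (Λ' \ Λ) ∪ (Ω \ Λ'), ‖c ξ‖ ^ 2 := by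
        have := sum_union_inter (s₁ := Λ) (s₂ := (Λ' \ Λ) ∪ (Ω \ Λ')) (f := fun ξ => ‖c ξ‖ ^ 2)
        have h0 : 0 ≤ ∑ ξ ∈ Λ ∩ ((Λ' \ Λ) ∪ (Ω \ Λ')), ‖c ξ‖ ^ 2 :=
          sum_nonneg fun _ _ => by positivity
        linarith
    _ ≤ ∑ ξ ∈ Λ, ‖c ξ‖ ^ 2 + (∑ ξ ∈ Λ' \ Λ, ‖c ξ‖ ^ 2 + ∑ ξ ∈ Ω \ Λ', ‖c ξ‖ ^ 2) := by
        have := sum_union_inter (s₁ := Λ' \ Λ) (s₂ := Ω \ Λ') (f := fun ξ => ‖c ξ‖ ^ 2)
        have h0 : 0 ≤ ∑ ξ ∈ (Λ' \ Λ) ∩ (Ω \ Λ'), ‖c ξ‖ ^ 2 :=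
          sum_nonneg fun _ _ => by positivity
        linarith
    _ ≤ 3 * κ := by linarith

theorem s_one : S_beta.{u} → S_wt.{u} → S_main.{u} → S_tel.{u} → S_one.{u} := by
  intro hbeta hwt hmain htel d N hd δ hδ hδ1
  set D : ℝ := δ ^ d with hD
  have hD0 : 0 < D := by positivity
  have hD1 : D ≤ 1 := pow_le_one₀ hδ.le hδ1
  have hdR : (1 : ℝ) ≤ d := by exact_mod_cast hd
  set κ : ℝ := min 1 ((D / (4 * d)) ^ 2 / 3) with hκdef
  have hκ : 0 < κ := lt_min one_pos (by positivity)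
  have hκ1 : κ ≤ 1 := min_le_left _ _
  have hκ2 : 3 * κ ≤ (D / (4 * d)) ^ 2 := by
    have : κ ≤ (D / (4 * d)) ^ 2 / 3 := min_le_right _ _
    linarith
  refine ⟨κ, hκ, fun ε hε hε1 => ?_⟩
  obtain ⟨Q, hQ⟩ := hbeta κ hκ ⌈(ε ^ 2)⁻¹⌉₊
  set η : ℝ := D / (8 * d * (Q + 1)) with hη
  have hη0 : 0 < η := by positivity
  have hη1 : η ≤ 1 := by
    rw [hη, div_le_one (by positivity)]
    have : (0 : ℝ) ≤ Q := by positivity
    nlinarith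
  obtain ⟨p, hp⟩ := exists_p (1 - η ^ 2 / 4) (by nlinarith) (by nlinarith [pow_pos hη0 2]) (d * Q)
    (D / 8) (by positivity)
  set T : ℝ := (2 * (p : ℝ) + 1) ^ (d * Q) with hT
  have hT0 : 0 < T := by positivity
  have hT1 : 1 ≤ T := one_le_pow₀ (by linarith [Nat.cast_nonneg (α := ℝ) p])
  set ε' : ℝ := min (ε / 2) (min (Real.sqrt (κ / (Q + 1))) (D / (8 * d * (N + 1) * T))) with hε'
  have hε'0 : 0 < ε' := lt_min (by positivity) (lt_min (by positivity) (by positivity))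
  have hε'1 : ε' ≤ ε / 2 := min_le_left _ _
  have hε'2 : ε' ^ 2 ≤ κ / (Q + 1) := by
    have h1 : ε' ≤ Real.sqrt (κ / (Q + 1)) := (min_le_right _ _).trans (min_le_left _ _)
    have h2 := pow_le_pow_left₀ hε'0.le h1 2
    rwa [Real.sq_sqrt (by positivity)] at h2
  have hε'3 : ε' ≤ D / (8 * d * (N + 1) * T) := (min_le_right _ _).trans (min_le_right _ _)
  refine ⟨ε', D / (4 * T), hε'0, by linarith, by positivity, ?_⟩
  intro G _ m hm φ M hM hC f hf hδf hsh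
  have hfb : BddR f := BddR.of_mem hf
  set F : G → ℂ := fun x => (f x : ℂ) with hF
  have hFb : Bdd F := hfb.ofReal
  have hn2 : m.n2 F ≤ 1 := by
    have := m.n2_le_of (f := F) (C := 1) fun x => by
      rw [hF, Complex.norm_real, Real.norm_eq_abs, abs_of_nonneg (hf x).1]
      exact (hf x).2
    simpa using this
  obtain ⟨Λ, hΛ, hΛc⟩ := spec_finite hm hFb hε
  obtain ⟨Λ', hΛ', -⟩ := spec_finite hm hFb hε'0
  have hΛK : Λ.card ≤ ⌈(ε ^ 2)⁻¹⌉₊ := by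
    have h1 : (Λ.card : ℝ) ≤ (ε ^ 2)⁻¹ := by
      rw [← one_div, le_div_iff₀ (by positivity)]
      linarith
    exact_mod_cast h1.trans (Nat.le_ceil _)
  obtain ⟨f1, Ω, b, hΩ, h1Ω, hb1, hb, hb0, hbΛ, hf1, hf1t⟩ := hQ G m hm Λ hΛK f hf
  have hf1b : BddR f1 := BddR.of_mem hf1
  have ha1 : ∀ ξ, ‖coef m F ξ‖ ≤ 1 := by
    intro ξ
    refine (norm_coef_le hFb ξ).trans (m.re_le hFb.norm fun x => ?_)
    rw [hF, Complex.norm_real, Real.norm_eq_abs, abs_of_nonneg (hf x).1]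
    exact (hf x).2
  set j1 : Fin d := ⟨0, hd⟩ with hj1
  set W := Wt j1 Ω p with hWdef
  have hWb : BddR W := Wt_bdd j1 Ω p
  set W0 := M.re W with hW0
  have hW0n : 0 ≤ W0 := M.re_nonneg hWb fun x => Wt_nonneg j1 Ω p x
  have hTW : 1 ≤ W0 * T := by
    have h1 := (hwt G m hm d φ M hM j1 Ω p).1
    have h2 : (1 / (2 * (p : ℝ) + 1)) ^ (d * Q) ≤ (1 / (2 * (p : ℝ) + 1)) ^ (d * Ω.card) := by
      refine pow_le_pow_of_le_one (by positivity) ?_ (Nat.mul_le_mul_left d hΩ)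
      rw [div_le_one (by positivity)]
      linarith [Nat.cast_nonneg (α := ℝ) p]
    have h3 : 1 / T ≤ W0 := by
      rw [hT, ← one_div_pow]
      exact h2.trans h1
    rwa [div_le_iff₀ hT0] at h3
  -- the main term
  have hm1 : m.re f1 = m.re f := by
    have h1 : (fun x => (f1 x : ℂ)) = trig Ω (fun ξ => (b ξ : ℂ) * coef m F ξ) := funext hf1t
    have h2 := coef_trig hm Ω (fun ξ => (b ξ : ℂ) * coef m F ξ) 1
    rw [if_pos h1Ω, ← h1, coef_one, coef_one, hb1] at h2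
    unfold St.re
    rw [h2]
    simp [hF]
  have e1 := hmain G m hm d φ M hM j1 Ω p f1 (fun ξ => (b ξ : ℂ) * coef m F ξ) δ η hf1
    (fun ξ => by
      rw [norm_mul, Complex.norm_real, Real.norm_eq_abs, abs_of_nonneg (hb ξ).1]
      exact mul_le_one₀ (hb ξ).2 (norm_nonneg _) (ha1 ξ)) hf1t hδ.le (hm1 ▸ hδf) hη0 hη1
  -- the error terms
  have hPb : Bdd (trig Λ' (coef m F)) := Bdd.trig _ _
  have hρ := dist_le hm f f1 hf κ ε ε' hκ.le hκ1 hε'0.le (by linarith) Λ Λ' Ω b Q hΩ hΛ hΛ' hb hb0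
    hbΛ hf1t (by
      have h1 : (Q : ℝ) * ε' ^ 2 ≤ Q * (κ / (Q + 1)) :=
        mul_le_mul_of_nonneg_left hε'2 (by positivity)
      refine h1.trans ?_
      rw [← mul_div_assoc, div_le_iff₀ (by positivity)]
      nlinarith) hsh
  have hρ2 : m.n2 (fun x => trig Λ' (coef m F) x - (f1 x : ℂ)) ≤ (D / (4 * d)) ^ 2 :=
    hρ.trans hκ2
  have e2 := htel G m hm d N φ M hM hC j1 Ω p f f1 (trig Λ' (coef m F)) ε' (D / (4 * d)) hf hf1
    hPb hε'0.le (by positivity) (fun ξ => by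
      classical
      rw [coef_sub hFb hPb, coef_trig hm]
      split_ifs with h
      · rw [sub_self, norm_zero]
        exact hε'0.le
      · rw [sub_zero]
        exact (not_le.1 fun h' => h ((hΛ' ξ).2 h')).le) hρ2
  rw [← hWdef, ← hW0] at e1 e2
  have e3 := (abs_le.1 e2).1
  have hprodb : BddR (fun x : Fin d → G => ∏ j, f (x j)) :=
    BddR.prod _ fun j _ => hfb.comp fun x : Fin d → G => x j
  have e4 : M.re (fun x => W x * ∏ j, f (x j)) ≤ M.re (fun x => ∏ j, f (x j)) := by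
    refine M.re_mono (hWb.mul hprodb) hprodb fun x => ?_
    exact mul_le_of_le_one_left (prod_nonneg fun j _ => (hf _).1) (Wt_le_one j1 Ω p x)
  -- numbers
  have n1 : (d : ℝ) * (Ω.card * η) ≤ D / 8 := by
    have h1 : (Ω.card : ℝ) ≤ Q + 1 := by
      have : (Ω.card : ℝ) ≤ Q := by exact_mod_cast hΩ
      linarith
    calc (d : ℝ) * (Ω.card * η) ≤ d * ((Q + 1) * η) := by gcongr
      _ = D / 8 := by
          rw [hη]
          field_simp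
  have n2 : (1 - η ^ 2 / 4) ^ p ≤ D / 8 * W0 := by
    have h1 : (1 - η ^ 2 / 4) ^ p * T ≤ D / 8 := hp
    have h2 : 0 ≤ (1 - η ^ 2 / 4) ^ p := by
      have : 0 ≤ 1 - η ^ 2 / 4 := by nlinarith
      positivity
    calc (1 - η ^ 2 / 4) ^ p = (1 - η ^ 2 / 4) ^ p * 1 := (mul_one _).symm
      _ ≤ (1 - η ^ 2 / 4) ^ p * (W0 * T) := mul_le_mul_of_nonneg_left hTW h2
      _ = (1 - η ^ 2 / 4) ^ p * T * W0 := by ring
      _ ≤ D / 8 * W0 := mul_le_mul_of_nonneg_right h1 hW0n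
  have n3 : (d : ℝ) * (N * ε') ≤ D / 8 * W0 := by
    have h1 : (d : ℝ) * (N * ε') * T ≤ D / 8 := by
      calc (d : ℝ) * (N * ε') * T ≤ d * ((N + 1) * (D / (8 * d * (N + 1) * T))) * T := by
            gcongr
            linarith
        _ = D / 8 := by
            field_simp
    have h2 : 0 ≤ (d : ℝ) * (N * ε') := by positivity
    calc (d : ℝ) * (N * ε') = d * (N * ε') * 1 := (mul_one _).symm
      _ ≤ d * (N * ε') * (W0 * T) := mul_le_mul_of_nonneg_left hTW h2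
      _ = d * (N * ε') * T * W0 := by ring
      _ ≤ D / 8 * W0 := mul_le_mul_of_nonneg_right h1 hW0n
  have n4 : (d : ℝ) * (W0 * (D / (4 * d))) = D / 4 * W0 := by
    field_simp
  have n5 : W0 * (d * (Ω.card * η)) ≤ W0 * (D / 8) := mul_le_mul_of_nonneg_left n1 hW0n
  have n6 : D / (4 * T) ≤ D / 4 * W0 := by
    rw [div_le_iff₀ (by positivity)]
    calc D = D * 1 := (mul_one D).symm
      _ ≤ D * (W0 * T) := mul_le_mul_of_nonneg_left hTW hD0.le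
      _ = D / 4 * W0 * (4 * T) := by ring
  have n7 : 0 ≤ D * W0 := mul_nonneg hD0.le hW0n
  have e5 : (d : ℝ) * (N * ε' + W0 * (D / (4 * d))) = d * (N * ε') + D / 4 * W0 := by
    rw [mul_add, n4]
  rw [e5] at e3
  have e6 : W0 * (δ ^ d - d * (Ω.card * η)) = W0 * D - W0 * (d * (Ω.card * η)) := by
    rw [hD]
    ring
  rw [e6] at e1
  have e7 : W0 * (D / 8) = D * W0 / 8 := by ring
  have e8 : D / 8 * W0 = D * W0 / 8 := by ring
  have e9 : D / 4 * W0 = D * W0 / 4 := by ring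
  have e10 : W0 * D = D * W0 := by ring
  linarith

end Pool.Agent.R141.Bohr
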